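import Pool.Agent.H603R3.SN.Phi

set_option autoImplicit false
set_option maxHeartbeats 4000000

open Finset

namespace Pool.Agent.H603R3.SN

open Pool.Agent.H43R3.SN

theorem taskCAP : TaskCAP := by
  intro hE α V gam g S h Y U t w p a r b B K s₁ H hb hK hS hw hwinj hwt ha hp hpinj hpe hcls
    hsum hs2 hbig
  classical
  obtain ⟨hE1, hE2⟩ := hE α V gam g S h Y U t H (by omega)
  by_cases hr : r = 0
  · subst hr
    exact ⟨fun _ => 0, by omega, fun j _ => by simp⟩
  have hr0 : 0 < r := Nat.pos_of_ne_zero hr
  have hY2 : s₁ + 2 * b ≤ Y := (H.UY _ hs2).2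
  have hKA : ∀ i < r, 30 ≤ K * a i := by
    intro i hi
    calc 30 = 30 * 1 := by norm_num
      _ ≤ K * a i := Nat.mul_le_mul (by omega) (ha i hi)
  -- edges
  have hedge' : ∀ i < r, ∀ q, q + 1 < K * a i →
      (g (p i q) + g (p i (q + 1)) = s₁ ∨ g (p i q) + g (p i (q + 1)) = s₁ + 2 * b) ∧
      S + 6 * h + 8 < g (p i q) + g (p i (q + 1)) ∧ g (p i q) + g (p i (q + 1)) ≤ Y := by
    intro i hi q hq
    obtain ⟨hg, hY⟩ := hpe i hi q hq
    obtain ⟨hV1, ht1, -⟩ := hp i hi q (by omega)
    obtain ⟨hV2, ht2, -⟩ := hp i hi (q + 1) hq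
    have hne : p i q ≠ p i (q + 1) := fun hc => by
      have := (hpinj i hi q (by omega) i hi (q + 1) hq hc).2
      omega
    have hU := (H.adj _ hV1 _ hV2 hne hY).1 hg
    have h1 := hE2 _ hV1 ht1 (by omega)
    have h2 := hE2 _ hV2 ht2 (by omega)
    have h3 : S + 6 * h + 8 < g (p i q) + g (p i (q + 1)) := by omega
    exact ⟨hbig _ hU h3, h3, hY⟩
  have hYbig : S + 6 * h + 8 < Y := by
    have h1 := hKA 0 hr0
    have := hedge' 0 hr0 0 (by omega)
    omega
  have hle : ∀ i < r, ∀ q < K * a i, g (p i q) ≤ s₁ + 2 * b := by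
    intro i hi q hq
    have h1 := hKA i hi
    by_cases hq1 : q + 1 < K * a i
    · have := (hedge' i hi q hq1).1
      omega
    · obtain ⟨q', rfl⟩ : ∃ q', q = q' + 1 := ⟨q - 1, by omega⟩
      have := (hedge' i hi q' hq).1
      omega
  -- holes
  set holes := (range (s₁ + 2 * b + 1)).filter (fun y => ∀ v ∈ V, g v ≠ y) with hholes
  have hhc : holes.card ≤ h := H.hole holes (fun y hy => by
    rw [hholes, mem_filter, mem_range] at hy
    exact ⟨by omega, hy.2⟩)
  set lone := (range (s₁ + 2 * b + 1)).filter (fun y => ∃ v ∈ V, g v = y ∧ ¬ ∃ u ∈ V, gam v u)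
    with hlone
  have hlc : lone.card ≤ h + 1 := by
    have hsub : lone ⊆ insert ((s₁ + 2 * b) / 2) (holes.image (fun y => s₁ + 2 * b - y)) := by
      intro y hy
      rw [hlone, mem_filter, mem_range] at hy
      obtain ⟨hy1, v, hv, hgv, hnon⟩ := hy
      rw [mem_insert, mem_image]
      by_cases hc : (s₁ + 2 * b - y) ∈ holes
      · right
        exact ⟨_, hc, by omega⟩
      · left
        rw [hholes, mem_filter, mem_range] at hc
        push Not at hc
        obtain ⟨v', hv', hgv'⟩ := hc (by omega)
        by_cases hvv : v = v'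
        · subst hvv; omega
        · exfalso
          apply hnon
          refine ⟨v', hv', (H.adj v hv v' hv' hvv (by omega)).2 ?_⟩
          have : g v + g v' = s₁ + 2 * b := by omega
          rw [this]; exact hs2
    refine (card_le_card hsub).trans ((card_insert_le _ _).trans ?_)
    have := card_image_le (s := holes) (f := fun y => s₁ + 2 * b - y)
    omega
  -- bound on `s₂`
  have hs2bd : s₁ + 2 * b + 1 ≤ h + (h + 1) + (S + 1) + (S + 2 * b + 1) + K * (b * B) := by
    set T := (range (S + 1)).image (fun i => g (t i)) with hT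
    set Wp := (range (S + 2 * b + 1)).image (fun j => g (w j)) with hWp
    set Pp := (range r).biUnion (fun i => (range (K * a i)).image (fun q => g (p i q))) with hPp
    have hsub : range (s₁ + 2 * b + 1) ⊆ holes ∪ (lone ∪ (T ∪ (Wp ∪ Pp))) := by
      intro y hy
      simp only [mem_union]
      by_cases h1 : ∃ v ∈ V, g v = y
      · obtain ⟨v, hv, hgv⟩ := h1
        rw [mem_range] at hy
        by_cases h2 : ∃ u ∈ V, gam v u
        · rcases hcls v hv h2 (by omega) with ⟨i, hi, rfl⟩ | ⟨j, hj, rfl⟩ | ⟨i, hi, q, hq, rfl⟩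
          · right; right; left
            rw [hT, mem_image]
            exact ⟨i, mem_range.2 (by omega), hgv⟩
          · right; right; right; left
            rw [hWp, mem_image]
            exact ⟨j, mem_range.2 (by omega), hgv⟩
          · right; right; right; right
            rw [hPp, mem_biUnion]
            exact ⟨i, mem_range.2 hi, mem_image.2 ⟨q, mem_range.2 hq, hgv⟩⟩
        · right; left
          rw [hlone, mem_filter, mem_range]
          exact ⟨hy, v, hv, hgv, h2⟩
      · left
        rw [hholes, mem_filter]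
        push Not at h1
        exact ⟨hy, h1⟩
    have h1 := card_le_card hsub
    rw [card_range] at h1
    have h2 := card_union_le holes (lone ∪ (T ∪ (Wp ∪ Pp)))
    have h3 := card_union_le lone (T ∪ (Wp ∪ Pp))
    have h4 := card_union_le T (Wp ∪ Pp)
    have h5 := card_union_le Wp Pp
    have h6 : T.card ≤ S + 1 := by
      have := card_image_le (s := range (S + 1)) (f := fun i => g (t i))
      rwa [card_range] at this
    have h7 : Wp.card ≤ S + 2 * b + 1 := by
      have := card_image_le (s := range (S + 2 * b + 1)) (f := fun j => g (w j))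
      rwa [card_range] at this
    have h8 : Pp.card ≤ K * (b * B) := by
      rw [← hsum, mul_sum]
      refine card_biUnion_le.trans (sum_le_sum fun i _ => ?_)
      have := card_image_le (s := range (K * a i)) (f := fun q => g (p i q))
      rwa [card_range] at this
    omega
  -- positions in `[0, S]` not occupied by `t`
  set N0 := (range (S + 1)).filter (fun x => ∀ i ≤ S, g (t i) ≠ x) with hN0
  have hN0c : N0.card ≤ 2 * h + 5 := by
    set T' := (range (S - 2 * h - 4)).image (fun i => g (t i)) with hT'
    have hT'c : T'.card = S - 2 * h - 4 := by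
      rw [hT', card_image_of_injOn, card_range]
      intro i hi j hj hij
      simp only [coe_range, Set.mem_Iio] at hi hj
      exact H.tinj i (by omega) j (by omega) (H.inj (H.tV i (by omega)) (H.tV j (by omega)) hij)
    have hdisj : Disjoint N0 T' := by
      rw [Finset.disjoint_left]
      intro x hx hx'
      rw [hN0, mem_filter] at hx
      rw [hT', mem_image] at hx'
      obtain ⟨i, hi, hix⟩ := hx'
      rw [mem_range] at hi
      exact hx.2 i (by omega) hix
    have hsub : N0 ∪ T' ⊆ range (S + 1) := by
      intro x hx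
      rw [mem_union] at hx
      rcases hx with hx | hx
      · rw [hN0, mem_filter] at hx; exact hx.1
      · rw [hT', mem_image] at hx
        obtain ⟨i, hi, rfl⟩ := hx
        rw [mem_range] at hi ⊢
        have := (hE1 i (by omega)).1
        omega
    have h1 := card_le_card hsub
    rw [card_union_of_disjoint hdisj, card_range, hT'c] at h1
    omega
  obtain ⟨φ, hφ1, hφ2, hφ3⟩ := exists_phi b s₁ hb
  -- positions in `[s₁ - S, s₂]` not occupied by `w`, in one class
  have hN2c : ∀ j, ((Icc (s₁ - S) (s₁ + 2 * b)).filter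
      (fun x => (∀ i ≤ S + 2 * b, g (w i) ≠ x) ∧ φ x = j)).card ≤ 10 * h + 21 := by
    intro j
    by_cases hcase : 2 * b + 2 * h + 4 ≤ S
    · set N2 := (Icc (s₁ - S) (s₁ + 2 * b)).filter
        (fun x => (∀ i ≤ S + 2 * b, g (w i) ≠ x) ∧ φ x = j) with hN2
      set good := (range (S + 2 * b - 2 * h - 4)).filter (fun i => S + 6 * h + 8 < g (w i)) with hgood
      set bad := (range (S + 2 * b - 2 * h - 4)).filter (fun i => ¬ (S + 6 * h + 8 < g (w i))) with hbad
      have hgb : good.card + bad.card = S + 2 * b - 2 * h - 4 := by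
        rw [hgood, hbad, Finset.card_filter_add_card_filter_not, card_range]
      have hwg : ∀ i ≤ S + 2 * b, ∀ i' ≤ S + 2 * b, g (w i) = g (w i') → i = i' := by
        intro i hi i' hi' hii
        exact hwinj i hi i' hi' (H.inj (hw i hi).1 (hw i' hi').1 hii)
      have hbadc : bad.card ≤ 8 * h + 16 := by
        have h1 : (bad.image (fun i => g (w i))).card = bad.card := by
          rw [card_image_of_injOn]
          intro i hi i' hi' hii
          rw [mem_coe, hbad, mem_filter, mem_range] at hi hi'
          exact hwg i (by omega) i' (by omega) hii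
        have h2 : bad.image (fun i => g (w i)) ⊆ Icc (S - 2 * h - 7) (S + 6 * h + 8) := by
          intro x hx
          rw [mem_image] at hx
          obtain ⟨i, hi, rfl⟩ := hx
          rw [hbad, mem_filter, mem_range] at hi
          obtain ⟨hi1, hi2⟩ := hi
          have h3 := hE2 (w i) (hw i (by omega)).1 (hw i (by omega)).2 (by omega)
          rw [mem_Icc]
          omega
        have h3 := card_le_card h2
        rw [h1, Nat.card_Icc] at h3
        omega
      have hgim : (good.image (fun i => g (w i))).card = good.card := by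
        rw [card_image_of_injOn]
        intro i hi i' hi' hii
        rw [mem_coe, hgood, mem_filter, mem_range] at hi hi'
        exact hwg i (by omega) i' (by omega) hii
      have hdisj : Disjoint N2 (good.image (fun i => g (w i))) := by
        rw [Finset.disjoint_left]
        intro x hx hx'
        rw [hN2, mem_filter] at hx
        rw [mem_image] at hx'
        obtain ⟨i, hi, hix⟩ := hx'
        rw [hgood, mem_filter, mem_range] at hi
        exact hx.2.1 i (by omega) hix
      have hsub : N2 ∪ good.image (fun i => g (w i)) ⊆ Icc (s₁ - S) (s₁ + 2 * b) := by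
        intro x hx
        rw [mem_union] at hx
        rcases hx with hx | hx
        · rw [hN2, mem_filter] at hx; exact hx.1
        · rw [mem_image] at hx
          obtain ⟨i, hi, rfl⟩ := hx
          rw [hgood, mem_filter, mem_range] at hi
          obtain ⟨hi1, hi2⟩ := hi
          -- the neighbour
          obtain ⟨k, hk1, hk2⟩ : ∃ k, k ≤ S - 2 * h - 5 ∧ (i = k ∨ i = k + 2 * b) := by
            by_cases hi3 : 2 * b ≤ i
            · exact ⟨i - 2 * b, by omega, Or.inr (by omega)⟩
            · exact ⟨i, by omega, Or.inl rfl⟩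
          have hk3 : k ≤ S := by omega
          have hi4 : i ≤ S + 2 * b := by omega
          have hgam : gam (w i) (t k) := (hwt k hk3 i hi4).2 hk2
          have hgam' : gam (t k) (w i) := H.symm _ _ hgam
          have hY := H.tl k hk3 (w i) (hw i hi4).1 hgam'
          have hne : t k ≠ w i := fun hc => (hw i hi4).2 k hk3 hc.symm
          have hU := (H.adj _ (H.tV k hk3) _ (hw i hi4).1 hne hY).1 hgam'
          have h3 := hbig _ hU (by omega)
          have h4 := (hE1 k (by omega)).1
          rw [mem_Icc]
          omega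
      have h1 := card_le_card hsub
      rw [card_union_of_disjoint hdisj, hgim, Nat.card_Icc] at h1
      omega
    · obtain ⟨ρ₁, ρ₂, hρ⟩ := hφ3 j
      have h1 := card_phi φ b j ρ₁ ρ₂ hb hρ ((Icc (s₁ - S) (s₁ + 2 * b)).filter
        (fun x => (∀ i ≤ S + 2 * b, g (w i) ≠ x) ∧ φ x = j)) (s₁ - S) (S + 2 * b + 1)
        (fun x hx => by
          rw [mem_filter, mem_Icc] at hx
          omega)
        (fun x hx => (mem_filter.1 hx).2.2)
      have h2 : (S + 2 * b + 1 + 2 * b - 1) / (2 * b) < 4 := by
        rw [Nat.div_lt_iff_lt_mul (by omega)]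
        omega
      omega
  -- positions strictly between
  have hN1c : ∀ j, ((Ico (S + 1) (s₁ - S)).filter (fun x => φ x = j)).card ≤ K * B + 2 * h + 2 := by
    intro j
    obtain ⟨ρ₁, ρ₂, hρ⟩ := hφ3 j
    have h1 := card_phi φ b j ρ₁ ρ₂ hb hρ ((Ico (S + 1) (s₁ - S)).filter (fun x => φ x = j))
      (S + 1) (s₁ - S - (S + 1))
      (fun x hx => by
        rw [mem_filter, mem_Ico] at hx
        omega)
      (fun x hx => (mem_filter.1 hx).2)
    set c := (s₁ - S - (S + 1) + 2 * b - 1) / (2 * b) with hc
    have h2 : c * (2 * b) ≤ s₁ - S - (S + 1) + 2 * b - 1 := Nat.div_mul_le_self _ _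
    have h3 : 2 * c * b ≤ K * (b * B) + 2 * h + 2 * b := by
      have e : 2 * c * b = c * (2 * b) := by ring
      rw [e]
      omega
    have h4 : 2 * c ≤ K * B + 2 * h + 2 := by
      by_contra hcon
      push Not at hcon
      have h5 : (K * B + 2 * h + 3) * b ≤ 2 * c * b := Nat.mul_le_mul_right _ hcon
      have h6 : (K * B + 2 * h + 3) * b = K * (b * B) + 2 * h * b + 3 * b := by ring
      have h7 : 2 * h ≤ 2 * h * b := Nat.le_mul_of_pos_right _ hb
      omega
    omega
  -- the assignment
  refine ⟨fun i => φ (g (p i 0)), fun i _ => hφ1 _, ?_⟩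
  intro j hj
  have hcls' : ∀ i < r, ∀ q < K * a i, φ (g (p i q)) = φ (g (p i 0)) := by
    intro i hi q
    induction q with
    | zero => intro _; rfl
    | succ q ih =>
      intro hq
      rw [← ih (by omega)]
      have := (hedge' i hi q hq).1
      exact hφ2 _ _ (by omega)
  set I := (range r).filter (fun i => φ (g (p i 0)) = j) with hI
  set Q := I.biUnion (fun i => (range (K * a i)).image (fun q => g (p i q))) with hQ
  have hQc : Q.card = K * ∑ i ∈ I, a i := by
    rw [hQ, card_biUnion, mul_sum]
    · refine sum_congr rfl fun i hi => ?_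
      rw [card_image_of_injOn, card_range]
      intro q hq q' hq' hqq
      rw [hI, mem_filter, mem_range] at hi
      simp only [coe_range, Set.mem_Iio] at hq hq'
      exact (hpinj i hi.1 q hq i hi.1 q' hq'
        (H.inj (hp i hi.1 q hq).1 (hp i hi.1 q' hq').1 hqq)).2
    · intro i hi i' hi' hii
      change Disjoint ((range (K * a i)).image (fun q => g (p i q)))
        ((range (K * a i')).image (fun q => g (p i' q)))
      rw [Finset.disjoint_left]
      intro x hx hx'
      rw [mem_image] at hx hx'
      obtain ⟨q, hq, hqx⟩ := hx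
      obtain ⟨q', hq', hqx'⟩ := hx'
      rw [mem_range] at hq hq'
      rw [mem_coe, hI, mem_filter, mem_range] at hi hi'
      exact hii (hpinj i hi.1 q hq i' hi'.1 q' hq'
        (H.inj (hp i hi.1 q hq).1 (hp i' hi'.1 q' hq').1 (hqx.trans hqx'.symm))).1
  have hQsub : Q ⊆ N0 ∪ ((Ico (S + 1) (s₁ - S)).filter (fun x => φ x = j) ∪
      (Icc (s₁ - S) (s₁ + 2 * b)).filter (fun x => (∀ i ≤ S + 2 * b, g (w i) ≠ x) ∧ φ x = j)) := by
    intro x hx
    rw [hQ, mem_biUnion] at hx
    obtain ⟨i, hi, hx⟩ := hx
    rw [mem_image] at hx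
    obtain ⟨q, hq, rfl⟩ := hx
    rw [mem_range] at hq
    rw [hI, mem_filter, mem_range] at hi
    obtain ⟨hi1, hi2⟩ := hi
    obtain ⟨hpV, hpt, hpw⟩ := hp i hi1 q hq
    have hφx : φ (g (p i q)) = j := by rw [hcls' i hi1 q hq]; exact hi2
    have hx2 := hle i hi1 q hq
    simp only [mem_union, mem_filter, mem_Ico, mem_Icc]
    by_cases c1 : g (p i q) ≤ S
    · left
      rw [hN0, mem_filter, mem_range]
      refine ⟨by omega, fun k hk hc => ?_⟩
      exact hpt k hk (H.inj hpV (H.tV k hk) hc.symm)
    · by_cases c2 : g (p i q) < s₁ - S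
      · right; left
        exact ⟨⟨by omega, c2⟩, hφx⟩
      · right; right
        refine ⟨⟨by omega, hx2⟩, fun k hk hc => ?_, hφx⟩
        exact hpw k hk (H.inj hpV (hw k hk).1 hc.symm)
  have h1 := card_le_card hQsub
  have h2 := card_union_le N0 ((Ico (S + 1) (s₁ - S)).filter (fun x => φ x = j) ∪
      (Icc (s₁ - S) (s₁ + 2 * b)).filter (fun x => (∀ i ≤ S + 2 * b, g (w i) ≠ x) ∧ φ x = j))
  have h3 := card_union_le ((Ico (S + 1) (s₁ - S)).filter (fun x => φ x = j))
      ((Icc (s₁ - S) (s₁ + 2 * b)).filter (fun x => (∀ i ≤ S + 2 * b, g (w i) ≠ x) ∧ φ x = j))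
  have h4 := hN1c j
  have h5 := hN2c j
  rw [hQc] at h1
  have h6 : K * ∑ i ∈ I, a i < K * (B + 1) := by
    have e : K * (B + 1) = K * B + K := by ring
    rw [e]
    omega
  have h7 := Nat.lt_of_mul_lt_mul_left h6
  omega

end Pool.Agent.H603R3.SN
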