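import Pool.Agent.H43R3.SN.StmtsA

set_option autoImplicit false
set_option maxHeartbeats 4000000

open Finset

namespace Pool.Agent.H603R3.SN

open Pool.Agent.H43R3.SN

/-- index of a residue -/
def ix (b σ ρ : ℕ) : ℕ :=
  if ρ ≤ σ then (if ρ ≤ σ - ρ then ρ else σ - ρ)
  else (if ρ ≤ σ + 2 * b - ρ then ρ - (σ + 1) + (σ / 2 + 1)
    else σ + 2 * b - ρ - (σ + 1) + (σ / 2 + 1))

lemma exists_phi (b s₁ : ℕ) (hb : 1 ≤ b) : ∃ φ : ℕ → ℕ, (∀ x, φ x < b) ∧
    (∀ x x', x + x' = s₁ ∨ x + x' = s₁ + 2 * b → φ x = φ x') ∧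
    (∀ j, ∃ ρ₁ ρ₂ : ℕ, ∀ x, φ x = j → x % (2 * b) = ρ₁ ∨ x % (2 * b) = ρ₂) := by
  obtain ⟨σ, hσ⟩ : ∃ σ, σ = s₁ % (2 * b) := ⟨_, rfl⟩
  have hσlt : σ < 2 * b := hσ ▸ Nat.mod_lt _ (by omega)
  refine ⟨fun x => if ix b σ (x % (2 * b)) = b then σ / 2 else ix b σ (x % (2 * b)), ?_, ?_, ?_⟩
  · intro x
    have hρ : x % (2 * b) < 2 * b := Nat.mod_lt _ (by omega)
    generalize x % (2 * b) = ρ at hρ
    simp only [ix]
    split_ifs <;> omega
  · intro x x' h
    have h1 : (x % (2 * b) + x' % (2 * b)) % (2 * b) = σ := by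
      rw [← Nat.add_mod]
      rcases h with h | h
      · rw [h, hσ]
      · rw [h, Nat.add_mod_right, hσ]
    have hρ : x % (2 * b) < 2 * b := Nat.mod_lt _ (by omega)
    have hρ' : x' % (2 * b) < 2 * b := Nat.mod_lt _ (by omega)
    have h2 := Nat.div_add_mod (x % (2 * b) + x' % (2 * b)) (2 * b)
    rw [h1] at h2
    have h3 : (x % (2 * b) + x' % (2 * b)) / (2 * b) < 2 := by
      rw [Nat.div_lt_iff_lt_mul (by omega)]
      omega
    have h4 : x % (2 * b) + x' % (2 * b) = σ ∨ x % (2 * b) + x' % (2 * b) = σ + 2 * b := by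
      interval_cases (x % (2 * b) + x' % (2 * b)) / (2 * b)
      · left; omega
      · right; omega
    have h5 : ix b σ (x % (2 * b)) = ix b σ (x' % (2 * b)) := by
      generalize x % (2 * b) = ρ at *
      generalize x' % (2 * b) = ρ' at *
      simp only [ix]
      split_ifs <;> omega
    simp only [h5]
  · intro j
    by_cases he : j = σ / 2 ∧ σ % 2 = 0
    · refine ⟨σ / 2, σ / 2 + b, fun x hx => ?_⟩
      have hρ : x % (2 * b) < 2 * b := Nat.mod_lt _ (by omega)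
      beta_reduce at hx
      generalize x % (2 * b) = ρ at hρ hx ⊢
      simp only [ix] at hx
      split_ifs at hx <;> omega
    · by_cases hj : j ≤ σ / 2
      · refine ⟨j, σ - j, fun x hx => ?_⟩
        have hρ : x % (2 * b) < 2 * b := Nat.mod_lt _ (by omega)
        beta_reduce at hx
        generalize x % (2 * b) = ρ at hρ hx ⊢
        simp only [ix] at hx
        split_ifs at hx <;> omega
      · refine ⟨j + σ - σ / 2, σ + 2 * b - (j + σ - σ / 2), fun x hx => ?_⟩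
        have hρ : x % (2 * b) < 2 * b := Nat.mod_lt _ (by omega)
        beta_reduce at hx
        generalize x % (2 * b) = ρ at hρ hx ⊢
        simp only [ix] at hx
        split_ifs at hx <;> omega

lemma card_res (s : Finset ℕ) (lo M d ρ : ℕ) (hd : 1 ≤ d) (hs : ∀ x ∈ s, lo ≤ x ∧ x < lo + M)
    (hr : ∀ x ∈ s, x % d = ρ) : s.card ≤ (M + d - 1) / d := by
  rw [← Finset.card_range ((M + d - 1) / d)]
  refine Finset.card_le_card_of_injOn (fun x => (x - lo) / d) ?_ ?_
  · intro x hx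
    obtain ⟨h1, h2⟩ := hs x hx
    simp only [coe_range, Set.mem_Iio]
    rw [Nat.div_lt_iff_lt_mul hd]
    have h3 := Nat.div_add_mod (M + d - 1) d
    have h4 := Nat.mod_lt (M + d - 1) hd
    have h5 : d * ((M + d - 1) / d) = (M + d - 1) / d * d := mul_comm _ _
    omega
  · intro x hx y hy hxy
    obtain ⟨h1, h2⟩ := hs x hx
    obtain ⟨h3, h4⟩ := hs y hy
    have hx' := hr x hx
    have hy' := hr y hy
    simp only at hxy
    have hm : x ≡ y [MOD d] := by rw [Nat.ModEq, hx', hy']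
    have hm2 : x - lo ≡ y - lo [MOD d] := by
      have e1 : x = (x - lo) + lo := by omega
      have e2 : y = (y - lo) + lo := by omega
      rw [e1, e2] at hm
      exact Nat.ModEq.add_right_cancel' lo hm
    have h5 := Nat.div_add_mod (x - lo) d
    have h6 := Nat.div_add_mod (y - lo) d
    rw [hxy, hm2] at h5
    omega

lemma card_phi (φ : ℕ → ℕ) (b j ρ₁ ρ₂ : ℕ) (hb : 1 ≤ b)
    (hφ : ∀ x, φ x = j → x % (2 * b) = ρ₁ ∨ x % (2 * b) = ρ₂) (s : Finset ℕ) (lo M : ℕ)
    (hs : ∀ x ∈ s, lo ≤ x ∧ x < lo + M) (hj : ∀ x ∈ s, φ x = j) :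
    s.card ≤ 2 * ((M + 2 * b - 1) / (2 * b)) := by
  have h1 : s ⊆ s.filter (fun x => x % (2 * b) = ρ₁) ∪ s.filter (fun x => x % (2 * b) = ρ₂) := by
    intro x hx
    rw [mem_union, mem_filter, mem_filter]
    rcases hφ x (hj x hx) with h | h
    · exact Or.inl ⟨hx, h⟩
    · exact Or.inr ⟨hx, h⟩
  have h2 := (card_le_card h1).trans (card_union_le _ _)
  have h3 := card_res (s.filter (fun x => x % (2 * b) = ρ₁)) lo M (2 * b) ρ₁ (by omega)
    (fun x hx => hs x (mem_filter.1 hx).1) (fun x hx => (mem_filter.1 hx).2)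
  have h4 := card_res (s.filter (fun x => x % (2 * b) = ρ₂)) lo M (2 * b) ρ₂ (by omega)
    (fun x hx => hs x (mem_filter.1 hx).1) (fun x hx => (mem_filter.1 hx).2)
  omega

end Pool.Agent.H603R3.SN
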